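import Mathlib

set_option autoImplicit false

/-!
# MP_8ff099_gt: `βX` selectively highly divergent, `X` not

Let `X` be the `Σ`-product in the Cantor cube `2 ^ I`, where `I` has size continuum.  Every sequence
in `X` has a convergent subsequence, so `X` is not selectively highly divergent.  The space `βX` is
homeomorphic to `2 ^ I`, and `2 ^ I` is selectively highly divergent.
-/

namespace Pool.Agent.Results.MP_8ff099_gt.SigmaProduct

open Set Filter Topology

/-- `X` is selectively highly divergent: for each sequence of nonempty open sets `U n` there are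
points `x n ∈ U n` such that the sequence `x` has no convergent subsequence. -/
def SHD (X : Type) [TopologicalSpace X] : Prop :=
  ∀ U : ℕ → Set X, (∀ n, IsOpen (U n) ∧ (U n).Nonempty) →
    ∃ x : ℕ → X, (∀ n, x n ∈ U n) ∧
      ∀ φ : ℕ → ℕ, StrictMono φ → ∀ z : X, ¬ Tendsto (x ∘ φ) atTop (𝓝 z)

/-- the index set -/
abbrev I : Type := (ℕ → ℕ) × Set ℕ

/-- the `Σ`-product -/
abbrev X : Type := {x : I → Bool // {i | x i = true}.Countable}

theorem uncountable_aux (S : Set (Set ℕ)) (hS : S.Countable) : ∃ B, B ∉ S := by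
  by_contra h
  push Not at h
  have h1 : S = Set.univ := eq_univ_of_forall h
  rw [h1, Set.countable_univ_iff] at hS
  have h2 : Cardinal.mk (Set ℕ) ≤ Cardinal.aleph0 := Cardinal.mk_le_aleph0_iff.2 hS
  rw [Cardinal.mk_set, Cardinal.mk_nat] at h2
  exact absurd h2 (not_le.2 (Cardinal.cantor _))

theorem exists_notMem (F : Set I) (hF : F.Countable) (φ : ℕ → ℕ) : ∃ B, (φ, B) ∉ F := by
  obtain ⟨B, hB⟩ := uncountable_aux ((fun B : Set ℕ => ((φ, B) : I)) ⁻¹' F)
    (hF.preimage (fun B B' h => (Prod.mk.inj h).2))
  exact ⟨B, hB⟩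

/-! ### `2 ^ I` is selectively highly divergent -/

theorem basic {U : Set (I → Bool)} (hU : IsOpen U) {p : I → Bool} (hp : p ∈ U) :
    ∃ F : Finset I, ∀ q : I → Bool, (∀ i ∈ F, q i = p i) → q ∈ U := by
  obtain ⟨F, u, hu, hsub⟩ := isOpen_pi_iff.1 hU p hp
  refine ⟨F, fun q hq => hsub ?_⟩
  intro i hi
  rw [hq i hi]
  exact (hu i hi).2

theorem shd_cube : SHD (I → Bool) := by
  classical
  intro U hU
  choose p hp using fun n => (hU n).2
  choose F hF using fun n => basic (hU n).1 (hp n)
  let x : ℕ → I → Bool := fun n i => if i ∈ F n then p n i else decide (∃ k, i.1 (2 * k) = n)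
  refine ⟨x, fun n => hF n (x n) (fun i hi => if_pos hi), ?_⟩
  intro φ hφ z hz
  obtain ⟨B, hB⟩ := exists_notMem (⋃ n, (F n : Set I))
    (countable_iUnion fun n => (F n).countable_toSet) φ
  have hB' : ∀ n, (φ, B) ∉ F n := fun n h => hB (mem_iUnion.2 ⟨n, h⟩)
  have h1 : Tendsto (fun k => x (φ k) (φ, B)) atTop (𝓝 (z (φ, B))) :=
    (tendsto_pi_nhds.1 hz) (φ, B)
  rw [nhds_discrete, tendsto_pure] at h1
  obtain ⟨N, hN⟩ := eventually_atTop.1 h1
  have h2 : x (φ (2 * N)) (φ, B) = true := by
    show (if (φ, B) ∈ F (φ (2 * N)) then _ else decide (∃ k, φ (2 * k) = φ (2 * N))) = true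
    rw [if_neg (hB' _)]
    exact decide_eq_true ⟨N, rfl⟩
  have h3 : x (φ (2 * N + 1)) (φ, B) = false := by
    show (if (φ, B) ∈ F (φ (2 * N + 1)) then _ else
      decide (∃ k, φ (2 * k) = φ (2 * N + 1))) = false
    rw [if_neg (hB' _)]
    apply decide_eq_false
    rintro ⟨k, hk⟩
    have := hφ.injective hk
    omega
  have h4 := hN (2 * N) (by omega)
  have h5 := hN (2 * N + 1) (by omega)
  rw [h2] at h4
  rw [h3, ← h4] at h5
  exact Bool.false_ne_true h5

theorem shd_of_homeo {Y Z : Type} [TopologicalSpace Y] [TopologicalSpace Z] (h : Y ≃ₜ Z)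
    (hZ : SHD Z) : SHD Y := by
  intro U hU
  obtain ⟨x, hx, hdiv⟩ := hZ (fun n => h '' U n)
    (fun n => ⟨h.isOpenMap _ (hU n).1, (hU n).2.image _⟩)
  refine ⟨fun n => h.symm (x n), fun n => ?_, ?_⟩
  · obtain ⟨y, hy, hyx⟩ := hx n
    show h.symm (x n) ∈ U n
    rw [← hyx, h.symm_apply_apply]
    exact hy
  · intro φ hφ z hz
    apply hdiv φ hφ (h z)
    have h1 := (h.continuous.tendsto z).comp hz
    have h2 : h ∘ (fun n => h.symm (x n)) ∘ φ = x ∘ φ := by
      funext n
      simp
    rw [h2] at h1
    exact h1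

/-! ### `X` is not selectively highly divergent -/

/-- a sequence of points with support in a countable set converges in `X` if the coordinates in
this set converge -/
theorem tendsto_X {A : Set I} (hA : A.Countable) (x : ℕ → X)
    (hx : ∀ n i, i ∉ A → (x n).1 i = false) (w : I → Bool)
    (hw : ∀ i ∈ A, Tendsto (fun n => (x n).1 i) atTop (𝓝 (w i))) :
    ∃ z : X, Tendsto x atTop (𝓝 z) := by
  classical
  refine ⟨⟨fun i => if i ∈ A then w i else false, hA.mono ?_⟩, ?_⟩
  · intro i hi
    by_contra h
    have : (if i ∈ A then w i else false) = true := hi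
    rw [if_neg h] at this
    exact Bool.false_ne_true this
  · rw [tendsto_subtype_rng, tendsto_pi_nhds]
    intro i
    by_cases h : i ∈ A
    · show Tendsto (fun n => (x n).1 i) atTop (𝓝 (if i ∈ A then w i else false))
      rw [if_pos h]
      exact hw i h
    · show Tendsto (fun n => (x n).1 i) atTop (𝓝 (if i ∈ A then w i else false))
      rw [if_neg h]
      have : (fun n => (x n).1 i) = fun _ => false := funext fun n => hx n i h
      rw [this]
      exact tendsto_const_nhds

theorem not_shd : ¬ SHD X := by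
  classical
  intro h
  have hne : (Set.univ : Set X).Nonempty := ⟨⟨fun _ => false, by simp⟩, trivial⟩
  obtain ⟨x, -, hdiv⟩ := h (fun _ => Set.univ) (fun _ => ⟨isOpen_univ, hne⟩)
  set A : Set I := ⋃ n, {i | (x n).1 i = true} with hA
  have hAc : A.Countable := countable_iUnion fun n => (x n).2
  have : Countable A := hAc.to_subtype
  obtain ⟨a, -, φ, hφ, hlim⟩ := (isCompact_univ (X := A → Bool)).tendsto_subseq
    (x := fun n (i : A) => (x n).1 i) (fun _ => trivial)
  obtain ⟨z, hz⟩ := tendsto_X hAc (x ∘ φ) (by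
    intro n i hi
    by_contra hcon
    rw [Bool.not_eq_false] at hcon
    exact hi (mem_iUnion.2 ⟨φ n, hcon⟩)) (fun i => if h : i ∈ A then a ⟨i, h⟩ else false) (by
    intro i hi
    rw [dif_pos hi]
    exact (tendsto_pi_nhds.1 hlim) ⟨i, hi⟩)
  exact hdiv φ hφ z hz

/-! ### `βX` is `2 ^ I` -/

theorem denseRange_val : DenseRange (fun x : X => (x.1 : I → Bool)) := by
  classical
  intro p
  rw [mem_closure_iff]
  intro U hU hp
  obtain ⟨F, hF⟩ := basic hU hp
  refine ⟨fun i => if i ∈ F then p i else false, hF _ (fun i hi => if_pos hi), ?_⟩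
  refine ⟨⟨fun i => if i ∈ F then p i else false, F.countable_toSet.mono ?_⟩, rfl⟩
  intro i hi
  by_contra h
  have h1 : (if i ∈ F then p i else false) = true := hi
  rw [if_neg (fun hh => h (Finset.mem_coe.2 hh))] at h1
  exact Bool.false_ne_true h1

theorem not_compact : ¬ CompactSpace X := by
  intro h
  have h1 : IsClosed (range fun x : X => (x.1 : I → Bool)) :=
    (isCompact_range continuous_subtype_val).isClosed
  have h2 : (range fun x : X => (x.1 : I → Bool)) = Set.univ := by
    rw [← h1.closure_eq]
    exact denseRange_val.closure_range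
  obtain ⟨x, hx⟩ : (fun _ => true : I → Bool) ∈ range fun x : X => (x.1 : I → Bool) := by
    rw [h2]; trivial
  obtain ⟨B, hB⟩ := exists_notMem _ x.2 id
  exact hB (congrFun hx (id, B))

/-- a countable set closed under a countable-set-valued operation on its finite subsets -/
theorem exists_closed (s : Finset I → Set I) (hs : ∀ E, (s E).Countable) :
    ∃ A : Set I, A.Countable ∧ ∀ E : Finset I, (E : Set I) ⊆ A → s E ⊆ A := by
  let A : ℕ → Set I := fun n => Nat.rec ∅
    (fun _ A => A ∪ ⋃ E ∈ {E : Finset I | (E : Set I) ⊆ A}, s E) n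
  have hsucc : ∀ n, A (n + 1) = A n ∪ ⋃ E ∈ {E : Finset I | (E : Set I) ⊆ A n}, s E :=
    fun n => rfl
  have hcount : ∀ n, (A n).Countable := by
    intro n
    induction n with
    | zero => exact countable_empty
    | succ n ih =>
      rw [hsucc]
      refine ih.union (Set.Countable.biUnion ?_ fun E _ => hs E)
      have h2 := Set.countable_ofPred_finite_subset ih
      refine Set.Countable.mono ?_ (h2.preimage Finset.coe_injective)
      intro E hE
      exact ⟨E.finite_toSet, hE⟩
  have hmono : Monotone A := monotone_nat_of_le_succ fun n => by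
    rw [hsucc]; exact subset_union_left
  refine ⟨⋃ n, A n, countable_iUnion hcount, fun E hE => ?_⟩
  obtain ⟨n, hn⟩ : ∃ n, (E : Set I) ⊆ A n := by
    exact (Directed.exists_mem_subset_of_finset_subset_biUnion (directed_of_isDirected_le hmono) hE)
  refine subset_trans ?_ (subset_iUnion A (n + 1))
  rw [hsucc]
  exact subset_union_of_subset_right (subset_biUnion_of_mem (u := s) hn) _

/-- the extension of the inclusion -/
noncomputable def h : StoneCech X → (I → Bool) :=
  stoneCechExtend (g := fun x : X => (x.1 : I → Bool)) continuous_subtype_val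

theorem h_cont : Continuous h := continuous_stoneCechExtend _

theorem h_unit (x : X) : h (stoneCechUnit x) = x.1 := stoneCechExtend_stoneCechUnit _ x

theorem h_inj : Function.Injective h := by
  classical
  intro p q hpq
  by_contra hne
  obtain ⟨F, hFp, hFq, -⟩ := exists_continuous_zero_one_of_isClosed
    (isClosed_singleton (x := p)) (isClosed_singleton (x := q))
    (Set.disjoint_singleton.2 hne)
  have hFp' : F p = 0 := hFp rfl
  have hFq' : F q = 1 := hFq rfl
  have hnear : ∀ (r : StoneCech X) (O : Set (StoneCech X)), IsOpen O → r ∈ O →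
      ∀ E : Finset I, ∃ x : X, stoneCechUnit x ∈ O ∧ ∀ i ∈ E, x.1 i = h r i := by
    intro r O hO hr E
    have hopen : IsOpen (O ∩ ⋂ i ∈ E, {z | h z i = h r i}) := by
      refine hO.inter (isOpen_biInter_finset fun i _ => ?_)
      have : Continuous fun z => h z i := (continuous_apply i).comp h_cont
      exact (isOpen_discrete {h r i}).preimage this
    obtain ⟨x, hx⟩ := denseRange_stoneCechUnit.exists_mem_open hopen
      ⟨r, hr, by simp⟩
    refine ⟨x, hx.1, fun i hi => ?_⟩
    have := mem_iInter₂.1 hx.2 i hi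
    rw [← h_unit]
    exact this
  have hOp : IsOpen {z | F z < 1 / 3} := isOpen_lt F.continuous continuous_const
  have hOq : IsOpen {z | 2 / 3 < F z} := isOpen_lt continuous_const F.continuous
  choose x hx1 hx2 using hnear p _ hOp (by show F p < 1 / 3; rw [hFp']; norm_num)
  choose y hy1 hy2 using hnear q _ hOq (by show 2 / 3 < F q; rw [hFq']; norm_num)
  obtain ⟨A, hA, hAcl⟩ := exists_closed
    (fun E => {i | (x E).1 i = true} ∪ {i | (y E).1 i = true})
    (fun E => (x E).2.union (y E).2)
  -- finite subsets exhausting `A`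
  obtain ⟨En, hEn, hEnA⟩ : ∃ En : ℕ → Finset I, (∀ n, (En n : Set I) ⊆ A) ∧
      ∀ i ∈ A, ∀ᶠ n in atTop, i ∈ En n := by
    rcases A.eq_empty_or_nonempty with rfl | hne'
    · exact ⟨fun _ => ∅, by simp, by simp⟩
    · obtain ⟨en, hen⟩ := hA.exists_eq_range hne'
      refine ⟨fun n => (Finset.range n).image en, fun n i hi => ?_, fun i hi => ?_⟩
      · rw [Finset.mem_coe, Finset.mem_image] at hi
        obtain ⟨k, -, rfl⟩ := hi
        rw [hen]
        exact mem_range_self k
      · rw [hen] at hi
        obtain ⟨k, rfl⟩ := hi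
        filter_upwards [eventually_gt_atTop k] with n hn
        exact Finset.mem_image_of_mem _ (Finset.mem_range.2 hn)
  let z : X := ⟨fun i => if i ∈ A then h p i else false, hA.mono (by
    intro i hi
    by_contra hcon
    have h1 : (if i ∈ A then h p i else false) = true := hi
    rw [if_neg hcon] at h1
    exact Bool.false_ne_true h1)⟩
  have key : ∀ (t : Finset I → X), (∀ E, ∀ i ∈ E, (t E).1 i = h p i) →
      (∀ E : Finset I, (E : Set I) ⊆ A → ∀ i, (t E).1 i = true → i ∈ A) →
      Tendsto (fun n => t (En n)) atTop (𝓝 z) := by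
    intro t ht1 ht2
    rw [tendsto_subtype_rng, tendsto_pi_nhds]
    intro i
    by_cases hi : i ∈ A
    · show Tendsto (fun n => (t (En n)).1 i) atTop (𝓝 (if i ∈ A then h p i else false))
      rw [if_pos hi]
      refine tendsto_const_nhds.congr' ?_
      filter_upwards [hEnA i hi] with n hn
      exact (ht1 _ i hn).symm
    · show Tendsto (fun n => (t (En n)).1 i) atTop (𝓝 (if i ∈ A then h p i else false))
      rw [if_neg hi]
      refine tendsto_const_nhds.congr' (Eventually.of_forall fun n => ?_)
      by_contra hcon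
      exact hi (ht2 _ (hEn n) i (by simpa using Ne.symm hcon))
  have hxz := key x hx2 (fun E hE i hi => hAcl E hE (Or.inl hi))
  have hyz := key y (fun E i hi => by rw [hpq]; exact hy2 E i hi)
    (fun E hE i hi => hAcl E hE (Or.inr hi))
  have hF : Continuous fun x : X => F (stoneCechUnit x) :=
    F.continuous.comp continuous_stoneCechUnit
  have h1 : F (stoneCechUnit z) ≤ 1 / 3 :=
    le_of_tendsto ((hF.tendsto z).comp hxz) (Eventually.of_forall fun n => (hx1 (En n)).le)
  have h2 : 2 / 3 ≤ F (stoneCechUnit z) :=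
    ge_of_tendsto ((hF.tendsto z).comp hyz) (Eventually.of_forall fun n => (hy1 (En n)).le)
  linarith

theorem h_surj : Function.Surjective h := by
  intro w
  have h1 : IsClosed (range h) := (isCompact_range h_cont).isClosed
  have h2 : range h = Set.univ := by
    rw [← h1.closure_eq]
    have h3 : (range fun x : X => (x.1 : I → Bool)) ⊆ range h := by
      rintro _ ⟨x, rfl⟩
      exact ⟨stoneCechUnit x, h_unit x⟩
    refine eq_univ_of_univ_subset ?_
    rw [← denseRange_val.closure_range]
    exact closure_mono h3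
  have h3 : w ∈ range h := by rw [h2]; trivial
  exact h3

/-- **Main theorem.** There is a Tychonoff space `X`, not compact, such that `βX` is selectively
highly divergent but `X` is not. -/
theorem result : ∃ (X : Type) (_ : TopologicalSpace X), T35Space X ∧ ¬ CompactSpace X ∧
    SHD (StoneCech X) ∧ ¬ SHD X := by
  refine ⟨X, inferInstance, inferInstance, not_compact, ?_, not_shd⟩
  exact shd_of_homeo (h_cont.homeoOfEquivCompactToT2 (f := Equiv.ofBijective h ⟨h_inj, h_surj⟩))
    shd_cube

end Pool.Agent.Results.MP_8ff099_gt.SigmaProduct
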